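import Pool.Agent.H223.CC.Shad
import Pool.Agent.H223.CE.Conv

set_option autoImplicit false
set_option linter.unusedSectionVars false

namespace Pool.Agent.H223.CC

open Filter Topology Set
open Pool.Agent.H223.CE (As)

variable {X Y Γ : Type*} [MetricSpace X] [ProperSpace X] [MetricSpace Y] [ProperSpace Y]
  [Group Γ] [MulAction Γ X] [IsIsometricSMul Γ X] [MulAction Γ Y] [IsIsometricSMul Γ Y]

/-- The coarse correspondence between two `Γ`-spaces. -/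
def Near (Γ : Type*) [Group Γ] [MulAction Γ X] [MulAction Γ Y] (x0 : X) (y0 : Y) (a : ℝ)
    (x : X) (y : Y) : Prop :=
  ∃ γ : Γ, dist x (γ • x0) ≤ a ∧ dist y (γ • y0) ≤ a

/-- Data: two proper cocompact `Γ`-spaces and maps that twist the action in the same way. -/
structure CPair (Γ : Type*) [Group Γ] [MulAction Γ X] [MulAction Γ Y] (φ : Γ ≃* Γ)
    (F : X ≃ₜ X) (G : Y ≃ₜ Y) (x0 : X) (y0 : Y) : Prop where
  cocX : ∃ a : ℝ, ∀ x : X, ∃ γ : Γ, dist x (γ • x0) ≤ a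
  cocY : ∃ a : ℝ, ∀ y : Y, ∃ γ : Γ, dist y (γ • y0) ≤ a
  cmp : ∀ a : ℝ, ∃ b : ℝ, ∀ γ : Γ, dist (γ • x0) x0 ≤ a → dist (γ • y0) y0 ≤ b
  cmp' : ∀ a : ℝ, ∃ b : ℝ, ∀ γ : Γ, dist (γ • y0) y0 ≤ a → dist (γ • x0) x0 ≤ b
  eqF : ∀ (γ : Γ) (x : X), F (γ • x) = φ γ • F x
  eqG : ∀ (γ : Γ) (y : Y), G (γ • y) = φ γ • G y

namespace Near

variable {x0 : X} {y0 : Y}

theorem mono {a b : ℝ} {x : X} {y : Y} (h : Near Γ x0 y0 a x y) (hab : a ≤ b) :
    Near Γ x0 y0 b x y := by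
  obtain ⟨γ, h1, h2⟩ := h
  exact ⟨γ, h1.trans hab, h2.trans hab⟩

theorem swap {a : ℝ} {x : X} {y : Y} (h : Near Γ x0 y0 a x y) : Near Γ y0 x0 a y x := by
  obtain ⟨γ, h1, h2⟩ := h
  exact ⟨γ, h2, h1⟩

theorem move {a b c : ℝ} {x x' : X} {y y' : Y} (h : Near Γ x0 y0 a x y) (hx : dist x x' ≤ b)
    (hy : dist y y' ≤ c) : Near Γ x0 y0 (a + max b c) x' y' := by
  obtain ⟨γ, h1, h2⟩ := h
  refine ⟨γ, ?_, ?_⟩
  · have := dist_triangle x' x (γ • x0)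
    rw [dist_comm x' x] at this
    have := le_max_left b c
    linarith
  · have := dist_triangle y' y (γ • y0)
    rw [dist_comm y' y] at this
    have := le_max_right b c
    linarith

theorem smul {a : ℝ} {x : X} {y : Y} (h : Near Γ x0 y0 a x y) (g : Γ) :
    Near Γ x0 y0 a (g • x) (g • y) := by
  obtain ⟨γ, h1, h2⟩ := h
  refine ⟨g * γ, ?_, ?_⟩
  · rw [mul_smul, dist_smul]; exact h1
  · rw [mul_smul, dist_smul]; exact h2

end Near

/-- coarsely bounded maps -/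
def CB {X : Type*} [MetricSpace X] (F : X → X) : Prop :=
  ∀ a : ℝ, ∃ b : ℝ, ∀ x x', dist x x' ≤ a → dist (F x) (F x') ≤ b

omit [ProperSpace X] in
theorem cb_of_equiv [ProperSpace X] {φ : Γ → Γ} {F : X → X} (hF : Continuous F)
    (hφ : ∀ (γ : Γ) (x : X), F (γ • x) = φ γ • F x) {x0 : X}
    (hc : ∃ a : ℝ, ∀ x : X, ∃ γ : Γ, dist x (γ • x0) ≤ a) : CB F := by
  intro a
  obtain ⟨a0, ha0⟩ := hc
  have hb : Bornology.IsBounded (F '' Metric.closedBall x0 (a0 + a)) :=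
    ((isCompact_closedBall x0 (a0 + a)).image hF).isBounded
  obtain ⟨b, hb⟩ := Metric.isBounded_iff.mp hb
  refine ⟨b, fun x x' hxx => ?_⟩
  obtain ⟨γ, hγ⟩ := ha0 x
  have h0 : 0 ≤ a := dist_nonneg.trans hxx
  have e : ∀ u : X, F u = φ γ • F (γ⁻¹ • u) := fun u => by rw [← hφ, smul_inv_smul]
  rw [e x, e x', dist_smul]
  have e2 : ∀ u : X, dist (γ⁻¹ • u) x0 = dist u (γ • x0) := fun u => by
    rw [← dist_smul γ, smul_inv_smul]
  apply hb
  · refine mem_image_of_mem F ?_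
    rw [Metric.mem_closedBall, e2]; linarith
  · refine mem_image_of_mem F ?_
    rw [Metric.mem_closedBall, e2]
    have := dist_triangle x' x (γ • x0)
    rw [dist_comm x' x] at this
    linarith

namespace CPair

variable {φ : Γ ≃* Γ} {F : X ≃ₜ X} {G : Y ≃ₜ Y} {x0 : X} {y0 : Y}

theorem symm (h : CPair Γ φ F G x0 y0) : CPair Γ φ G F y0 x0 where
  cocX := h.cocY
  cocY := h.cocX
  cmp := h.cmp'
  cmp' := h.cmp
  eqF := h.eqG
  eqG := h.eqF

theorem eqF' (h : CPair Γ φ F G x0 y0) (γ : Γ) (x : X) : F.symm (γ • x) = φ.symm γ • F.symm x := by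
  apply F.injective
  rw [Homeomorph.apply_symm_apply, h.eqF, Homeomorph.apply_symm_apply, MulEquiv.apply_symm_apply]

theorem inv (h : CPair Γ φ F G x0 y0) : CPair Γ φ.symm F.symm G.symm x0 y0 where
  cocX := h.cocX
  cocY := h.cocY
  cmp := h.cmp
  cmp' := h.cmp'
  eqF := h.eqF'
  eqG := h.symm.eqF'

theorem cbF (h : CPair Γ φ F G x0 y0) : CB F := cb_of_equiv F.continuous h.eqF h.cocX

theorem near_eq (h : CPair Γ φ F G x0 y0) (a b : ℝ) : ∃ d : ℝ, ∀ (x : X) (y y' : Y),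
    Near Γ x0 y0 a x y → Near Γ x0 y0 b x y' → dist y y' ≤ d := by
  obtain ⟨c, hc⟩ := h.cmp (b + a)
  refine ⟨a + c + b, ?_⟩
  rintro x y y' ⟨γ, h1, h2⟩ ⟨γ', h3, h4⟩
  have h5 : dist ((γ⁻¹ * γ') • x0) x0 ≤ b + a := by
    rw [← dist_smul γ, smul_smul, mul_inv_cancel_left]
    have := dist_triangle (γ' • x0) x (γ • x0)
    rw [dist_comm (γ' • x0) x] at this
    linarith
  have h6 := hc _ h5
  rw [← dist_smul γ, smul_smul, mul_inv_cancel_left] at h6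
  have := dist_triangle4 y (γ • y0) (γ' • y0) y'
  rw [dist_comm (γ • y0), dist_comm (γ' • y0) y'] at this
  linarith

theorem near_map (h : CPair Γ φ F G x0 y0) (a : ℝ) : ∃ b : ℝ, ∀ (x : X) (y : Y),
    Near Γ x0 y0 a x y → Near Γ x0 y0 b (F x) (G y) := by
  obtain ⟨b, hb⟩ := h.cbF a
  obtain ⟨b', hb'⟩ := h.symm.cbF a
  refine ⟨max (b + dist (F x0) x0) (b' + dist (G y0) y0), ?_⟩
  rintro x y ⟨γ, h1, h2⟩
  refine ⟨φ γ, ?_, ?_⟩
  · have e1 := hb _ _ h1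
    rw [h.eqF] at e1
    have e2 := dist_triangle (F x) (φ γ • F x0) (φ γ • x0)
    rw [dist_smul (φ γ)] at e2
    exact le_max_of_le_left (by linarith)
  · have e1 := hb' _ _ h2
    rw [h.eqG] at e1
    have e2 := dist_triangle (G y) (φ γ • G y0) (φ γ • y0)
    rw [dist_smul (φ γ)] at e2
    exact le_max_of_le_right (by linarith)

theorem near_pow (h : CPair Γ φ F G x0 y0) (n : ℕ) (a : ℝ) : ∃ b : ℝ, ∀ k ≤ n, ∀ (x : X) (y : Y),
    Near Γ x0 y0 a x y → Near Γ x0 y0 b ((F ^ (k : ℤ)) x) ((G ^ (k : ℤ)) y) := by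
  induction n with
  | zero =>
    refine ⟨a, fun k hk x y hxy => ?_⟩
    obtain rfl : k = 0 := by omega
    exact hxy
  | succ n ih =>
    obtain ⟨b, hb⟩ := ih
    obtain ⟨c, hc⟩ := h.near_map b
    refine ⟨max b c, fun k hk x y hxy => ?_⟩
    rcases Nat.lt_or_ge n k with h1 | h1
    · obtain rfl : k = n + 1 := by omega
      have h2 := hc _ _ (hb n le_rfl x y hxy)
      rw [← zpow_succ_apply, ← zpow_succ_apply] at h2
      exact h2.mono (le_max_right _ _)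
    · exact (hb k h1 x y hxy).mono (le_max_left _ _)

/-- the shadowing relation -/
def Sh (Γ : Type*) [Group Γ] [MulAction Γ X] [MulAction Γ Y] (F : X ≃ₜ X) (G : Y ≃ₜ Y)
    (x0 : X) (y0 : Y) (B : ℝ) (x : X) (w : Y) : Prop :=
  ∀ n : ℤ, Near Γ x0 y0 B ((F ^ n) x) ((G ^ n) w)

theorem Sh.swap {B : ℝ} {x : X} {w : Y} (h : Sh Γ F G x0 y0 B x w) : Sh Γ G F y0 x0 B w x :=
  fun n => (h n).swap

/-- **Existence of shadowing orbits**, with a uniform constant. -/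
theorem exists_sh (h : CPair Γ φ F G x0 y0) {N : ℕ} {R : ℝ} (hN : 1 ≤ N)
    (hCH : ∀ x y, R ≤ dist x y →
      2 * dist x y ≤ max (dist (G^[N] x) (G^[N] y)) (dist (G.symm^[N] x) (G.symm^[N] y)))
    (hgps : ∀ x y, ∃ w, As G x w ∧ As G.symm y w) :
    ∃ B : ℝ, ∀ x, ∃ w, Sh Γ F G x0 y0 B x w := by
  obtain ⟨a0, ha0⟩ := h.cocX
  obtain ⟨b1, hb1⟩ := h.near_pow N a0
  obtain ⟨b2, hb2⟩ := h.inv.near_pow N a0
  obtain ⟨d1, hd1⟩ := h.near_eq b1 a0
  obtain ⟨d2, hd2⟩ := h.near_eq b2 a0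
  set C := max 0 (max d1 d2) with hCdef
  have hC0 : 0 ≤ C := le_max_left _ _
  have hC1 : d1 ≤ C := (le_max_left _ _).trans (le_max_right _ _)
  have hC2 : d2 ≤ C := (le_max_right _ _).trans (le_max_right _ _)
  obtain ⟨B, hB⟩ := h.near_pow N (a0 + max 0 (max R C))
  refine ⟨B, fun x => ?_⟩
  have hch : ∀ n : ℤ, ∃ y, Near Γ x0 y0 a0 ((F ^ ((N : ℤ) * n)) x) y := by
    intro n
    obtain ⟨γ, hγ⟩ := ha0 ((F ^ ((N : ℤ) * n)) x)
    exact ⟨γ • y0, γ, hγ, by rw [dist_self]; exact dist_nonneg.trans hγ⟩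
  choose y hy using hch
  set T : Y ≃ₜ Y := G ^ (N : ℤ) with hT
  have hTapp : ∀ y, T y = G^[N] y := fun y => zpow_nat_apply G N y
  have hTs : T.symm = G ^ (-(N : ℤ)) := by rw [zpow_neg]; rfl
  have hTsapp : ∀ y, T.symm y = G.symm^[N] y := by
    intro y
    rw [hTs]
    exact zpow_neg_nat_apply G N y
  have hinvpow : ∀ (k : ℤ) (u : X), (F.symm ^ k) u = (F ^ (-k)) u := by
    intro k u
    rw [zpow_neg, ← inv_zpow]; rfl
  have hinvpow' : ∀ (k : ℤ) (u : Y), (G.symm ^ k) u = (G ^ (-k)) u := by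
    intro k u
    rw [zpow_neg, ← inv_zpow]; rfl
  obtain ⟨w, hw⟩ := coarse_shadow T (R := R) (C := C) hC0 (fun u v huv => by
      rw [hTapp, hTapp, hTsapp, hTsapp]; exact hCH u v huv)
    (fun u v => by
      obtain ⟨w, hw1, hw2⟩ := hgps u v
      refine ⟨w, ?_, ?_⟩
      · have h1 : (T : Y → Y) = G^[N] := funext hTapp
        rw [h1]; exact Pool.Agent.H223.CE.iter_of_as hN hw1
      · have h1 : (T.symm : Y → Y) = G.symm^[N] := funext hTsapp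
        rw [h1]; exact Pool.Agent.H223.CE.iter_of_as hN hw2)
    y (fun n => by
      have h1 := hb1 N le_rfl _ _ (hy n)
      rw [← zpow_add_apply] at h1
      have h2 := hy (n + 1)
      have h3 : (N : ℤ) * (n + 1) = N + N * n := by ring
      rw [h3] at h2
      exact (hd1 _ _ _ h1 h2).trans hC1)
    (fun n => by
      have h1 := hb2 N le_rfl _ _ (hy (n + 1))
      rw [hinvpow, hinvpow', ← zpow_add_apply] at h1
      have h3 : -(N : ℤ) + N * (n + 1) = N * n := by ring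
      rw [h3] at h1
      rw [hTs]
      exact (hd2 _ _ _ h1 (hy n)).trans hC2)
  refine ⟨w, fun n => ?_⟩
  have hN0 : (0 : ℤ) < N := by exact_mod_cast hN
  obtain ⟨k, hk⟩ : ∃ k : ℕ, n % N = k := Int.eq_ofNat_of_zero_le (Int.emod_nonneg n hN0.ne')
  have hkN : k ≤ N := by
    have := Int.emod_lt_of_pos n hN0
    omega
  have hn : n = k + N * (n / N) := by
    have := Int.emod_add_mul_ediv n N
    omega
  have h1 : Near Γ x0 y0 (a0 + max 0 (max R C)) ((F ^ ((N : ℤ) * (n / N))) x)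
      ((G ^ ((N : ℤ) * (n / N))) w) := by
    apply (hy (n / N)).move
    · rw [dist_self]
    · rw [dist_comm, zpow_mul]
      exact hw (n / N)
  have h2 := hB k hkN _ _ h1
  rw [← zpow_add_apply, ← zpow_add_apply, ← hn] at h2
  exact h2

theorem sh_unique (h : CPair Γ φ F G x0 y0)
    (hexp : ∀ (u v : Y) (B : ℝ), (∀ n : ℤ, dist ((G ^ n) u) ((G ^ n) v) ≤ B) → u = v)
    {B B' : ℝ} {x : X} {w w' : Y} (h1 : Sh Γ F G x0 y0 B x w) (h2 : Sh Γ F G x0 y0 B' x w') :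
    w = w' := by
  obtain ⟨d, hd⟩ := h.near_eq B B'
  exact hexp w w' d fun n => hd _ _ _ (h1 n) (h2 n)

theorem sh_closed {B : ℝ} {k : X → Y}
    (hk : ∀ x, Sh Γ F G x0 y0 B x (k x)) {x : X} {w : Y} {𝒰 : Filter X} [𝒰.NeBot]
    (h1 : 𝒰 ≤ 𝓝 x) (h2 : Tendsto k 𝒰 (𝓝 w)) : Sh Γ F G x0 y0 (B + max 1 1) x w := by
  intro n
  have e1 : ∀ᶠ x' in 𝒰, dist ((F ^ n) x') ((F ^ n) x) ≤ 1 := by
    have h3 : Tendsto (fun x' => dist ((F ^ n) x') ((F ^ n) x)) 𝒰 (𝓝 0) := by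
      rw [← dist_self ((F ^ n) x)]
      exact ((((F ^ n).continuous.tendsto x).mono_left h1)).dist tendsto_const_nhds
    filter_upwards [(tendsto_order.mp h3).2 1 one_pos] with x' hx' using hx'.le
  have e2 : ∀ᶠ x' in 𝒰, dist ((G ^ n) (k x')) ((G ^ n) w) ≤ 1 := by
    have h3 : Tendsto (fun x' => dist ((G ^ n) (k x')) ((G ^ n) w)) 𝒰 (𝓝 0) := by
      rw [← dist_self ((G ^ n) w)]
      exact ((((G ^ n).continuous.tendsto w).comp h2)).dist tendsto_const_nhds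
    filter_upwards [(tendsto_order.mp h3).2 1 one_pos] with x' hx' using hx'.le
  obtain ⟨x', hx1, hx2⟩ := (e1.and e2).exists
  exact (hk x' n).move hx1 hx2

theorem sh_continuous (h : CPair Γ φ F G x0 y0)
    (hexp : ∀ (u v : Y) (B : ℝ), (∀ n : ℤ, dist ((G ^ n) u) ((G ^ n) v) ≤ B) → u = v)
    {B : ℝ} {k : X → Y} (hk : ∀ x, Sh Γ F G x0 y0 B x (k x)) : Continuous k := by
  rw [continuous_iff_ultrafilter]
  intro x 𝒰 h𝒰
  obtain ⟨d, hd⟩ := h.near_eq (B + max 1 0) B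
  have hmem : ∀ᶠ x' in (𝒰 : Filter X), k x' ∈ Metric.closedBall (k x) d := by
    filter_upwards [h𝒰 (Metric.closedBall_mem_nhds x one_pos)] with x' hx'
    rw [Metric.mem_closedBall]
    apply hd x
    · exact (hk x' 0).move hx' (by rw [zpow_zero]; exact (dist_self (k x')).le)
    · exact hk x 0
  have h1 : ((𝒰.map k : Ultrafilter Y) : Filter Y) ≤ 𝓟 (Metric.closedBall (k x) d) := by
    rw [le_principal_iff]
    exact hmem
  obtain ⟨w, -, hw⟩ := (isCompact_closedBall (k x) d).ultrafilter_le_nhds _ h1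
  have h2 : Tendsto k (𝒰 : Filter X) (𝓝 w) := hw
  have h3 := sh_closed hk h𝒰 h2
  have h4 := h.sh_unique hexp h3 (hk x)
  rw [← h4]; exact h2

theorem sh_step {B : ℝ} {x : X} {w : Y} (h : Sh Γ F G x0 y0 B x w) :
    Sh Γ F G x0 y0 B (F x) (G w) := by
  intro n
  have e1 : (F ^ n) (F x) = (F ^ (n + 1)) x := by rw [zpow_add_apply, zpow_one]
  have e2 : (G ^ n) (G w) = (G ^ (n + 1)) w := by rw [zpow_add_apply, zpow_one]
  rw [e1, e2]
  exact h (n + 1)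

theorem twist (h : CPair Γ φ F G x0 y0) (n : ℤ) : ∀ γ : Γ, ∃ γ' : Γ,
    (∀ x : X, (F ^ n) (γ • x) = γ' • (F ^ n) x) ∧ ∀ y : Y, (G ^ n) (γ • y) = γ' • (G ^ n) y := by
  induction n using Int.induction_on with
  | zero => exact fun γ => ⟨γ, fun x => rfl, fun y => rfl⟩
  | succ n ih =>
    intro γ
    obtain ⟨γ', h1, h2⟩ := ih γ
    refine ⟨φ γ', fun x => ?_, fun y => ?_⟩
    · rw [zpow_succ_apply, zpow_succ_apply, h1, h.eqF]
    · rw [zpow_succ_apply, zpow_succ_apply, h2, h.eqG]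
  | pred n ih =>
    intro γ
    obtain ⟨γ', h1, h2⟩ := ih γ
    refine ⟨φ.symm γ', fun x => ?_, fun y => ?_⟩
    · have e : ∀ u : X, (F ^ (-(n : ℤ) - 1)) u = F.symm ((F ^ (-(n : ℤ))) u) := by
        intro u
        have := zpow_symm_apply F (-(n : ℤ) - 1) u
        rw [sub_add_cancel] at this
        exact this.symm
      rw [e, e, h1, h.eqF']
    · have e : ∀ u : Y, (G ^ (-(n : ℤ) - 1)) u = G.symm ((G ^ (-(n : ℤ))) u) := by
        intro u
        have := zpow_symm_apply G (-(n : ℤ) - 1) u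
        rw [sub_add_cancel] at this
        exact this.symm
      rw [e, e, h2, h.symm.eqF']

theorem sh_smul (h : CPair Γ φ F G x0 y0) {B : ℝ} {x : X} {w : Y}
    (h1 : Sh Γ F G x0 y0 B x w) (γ : Γ) : Sh Γ F G x0 y0 B (γ • x) (γ • w) := by
  intro n
  obtain ⟨γ', e1, e2⟩ := h.twist n γ
  rw [e1, e2]
  exact (h1 n).smul γ'

/-- **The equivariant semiconjugacy.** -/
theorem exists_map (h : CPair Γ φ F G x0 y0) {N : ℕ} {R : ℝ} (hN : 1 ≤ N)
    (hCH : ∀ x y, R ≤ dist x y →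
      2 * dist x y ≤ max (dist (G^[N] x) (G^[N] y)) (dist (G.symm^[N] x) (G.symm^[N] y)))
    (hgps : ∀ x y, ∃ w, As G x w ∧ As G.symm y w)
    (hexp : ∀ (u v : Y) (B : ℝ), (∀ n : ℤ, dist ((G ^ n) u) ((G ^ n) v) ≤ B) → u = v) :
    ∃ (k : X → Y) (B : ℝ), Continuous k ∧ (∀ x, k (F x) = G (k x)) ∧
      (∀ (γ : Γ) (x : X), k (γ • x) = γ • k x) ∧ ∀ x, Sh Γ F G x0 y0 B x (k x) := by
  obtain ⟨B, hB⟩ := h.exists_sh hN hCH hgps
  choose k hk using hB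
  refine ⟨k, B, h.sh_continuous hexp hk, fun x => ?_, fun γ x => ?_, hk⟩
  · exact h.sh_unique hexp (hk (F x)) (sh_step (hk x))
  · exact h.sh_unique hexp (hk (γ • x)) (h.sh_smul (hk x) γ)

/-- **The equivariant conjugacy.** -/
theorem exists_homeo (h : CPair Γ φ F G x0 y0) {N : ℕ} {R : ℝ} (hN : 1 ≤ N)
    (hCH : ∀ x y, R ≤ dist x y →
      2 * dist x y ≤ max (dist (G^[N] x) (G^[N] y)) (dist (G.symm^[N] x) (G.symm^[N] y)))
    (hgps : ∀ x y, ∃ w, As G x w ∧ As G.symm y w)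
    (hexp : ∀ (u v : Y) (B : ℝ), (∀ n : ℤ, dist ((G ^ n) u) ((G ^ n) v) ≤ B) → u = v)
    {N' : ℕ} {R' : ℝ} (hN' : 1 ≤ N') (hCH' : ∀ x y, R' ≤ dist x y →
      2 * dist x y ≤ max (dist (F^[N'] x) (F^[N'] y)) (dist (F.symm^[N'] x) (F.symm^[N'] y)))
    (hgps' : ∀ x y, ∃ w, As F x w ∧ As F.symm y w)
    (hexp' : ∀ (u v : X) (B : ℝ), (∀ n : ℤ, dist ((F ^ n) u) ((F ^ n) v) ≤ B) → u = v) :
    ∃ k : X ≃ₜ Y, (∀ x, k (F x) = G (k x)) ∧ ∀ (γ : Γ) (x : X), k (γ • x) = γ • k x := by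
  obtain ⟨k, B, hkc, hk1, hk2, hk3⟩ := h.exists_map hN hCH hgps hexp
  obtain ⟨l, B', hlc, hl1, hl2, hl3⟩ := h.symm.exists_map hN' hCH' hgps' hexp'
  refine ⟨⟨⟨k, l, fun x => ?_, fun y => ?_⟩, hkc, hlc⟩, hk1, hk2⟩
  · exact h.symm.sh_unique hexp' (hl3 (k x)) (Sh.swap (hk3 x))
  · exact h.sh_unique hexp (hk3 (l y)) (Sh.swap (hl3 y))

end CPair

end Pool.Agent.H223.CC
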