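import Pool.Agent.H223.CC.Corr
import Pool.Agent.H223.CE.Fin
import Pool.Agent.TH553.K289.J918

set_option autoImplicit false
set_option linter.unusedSectionVars false

open scoped Manifold ContDiff Topology
open Set Filter

namespace Pool.Agent.H223.CC

open Pool.Agent.H721R2 Pool.Agent.H789R2.AN Pool.Agent.H223.CE

section desc

variable {M N X Y Γ : Type*} [TopologicalSpace M] [TopologicalSpace N] [MetricSpace X]
  [MetricSpace Y] [Group Γ] [MulAction Γ X] [MulAction Γ Y]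

theorem descend_aux {P : X → M} {Q : Y → N} (hP : IsCoveringMap P) (hPs : Function.Surjective P)
    (hPΓ : ∀ x y, P x = P y ↔ ∃ γ : Γ, γ • x = y) (hQc : Continuous Q)
    (hQΓ : ∀ x y, Q x = Q y ↔ ∃ γ : Γ, γ • x = y) (H : X → Y) (hc : Continuous H)
    (hH : ∀ (γ : Γ) (x : X), H (γ • x) = γ • H x) :
    ∃ h : M → N, Continuous h ∧ ∀ x, Q (H x) = h (P x) := by
  have hq : Topology.IsQuotientMap P := hP.isQuotientMap hPs
  have h1 : ∀ x, Q (H x) = Q (H (Function.surjInv hPs (P x))) := by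
    intro x
    obtain ⟨γ, hγ⟩ := (hPΓ x (Function.surjInv hPs (P x))).mp (Function.surjInv_eq hPs (P x)).symm
    rw [← hγ, hH]
    exact (hQΓ _ _).mpr ⟨γ, rfl⟩
  refine ⟨fun m => Q (H (Function.surjInv hPs m)), ?_, h1⟩
  rw [hq.continuous_iff]
  have h2 : (fun m => Q (H (Function.surjInv hPs m))) ∘ P = fun x => Q (H x) :=
    funext fun x => (h1 x).symm
  rw [h2]
  exact hQc.comp hc

theorem descend {P : X → M} {Q : Y → N} (hP : IsCoveringMap P) (hPs : Function.Surjective P)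
    (hPΓ : ∀ x y, P x = P y ↔ ∃ γ : Γ, γ • x = y) (hQ : IsCoveringMap Q)
    (hQs : Function.Surjective Q)
    (hQΓ : ∀ x y, Q x = Q y ↔ ∃ γ : Γ, γ • x = y) (H : X ≃ₜ Y)
    (hH : ∀ (γ : Γ) (x : X), H (γ • x) = γ • H x) :
    ∃ h : M ≃ₜ N, ∀ x, Q (H x) = h (P x) := by
  obtain ⟨h, hc, h1⟩ := descend_aux hP hPs hPΓ hQ.continuous hQΓ H H.continuous hH
  obtain ⟨l, lc, l1⟩ := descend_aux hQ hQs hQΓ hP.continuous hPΓ H.symm H.symm.continuous
    (fun γ y => by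
      apply H.injective
      rw [Homeomorph.apply_symm_apply, hH, Homeomorph.apply_symm_apply])
  refine ⟨⟨⟨h, l, fun m => ?_, fun m => ?_⟩, hc, lc⟩, h1⟩
  · obtain ⟨x, rfl⟩ := hPs m
    rw [← h1, ← l1, Homeomorph.symm_apply_apply]
  · obtain ⟨y, rfl⟩ := hQs m
    rw [← l1, ← h1, Homeomorph.apply_symm_apply]

end desc

section ret

variable {M X Γ : Type*} [MetricSpace M] [CompactSpace M] [MetricSpace X] [ProperSpace X]
  [ConnectedSpace X] [Group Γ] [MulAction Γ X] [IsIsometricSMul Γ X] [FaithfulSMul Γ X] {P : X → M}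

theorem free_of_faithful (hP : IsCoveringMap P)
    (hΓ : ∀ x y, P x = P y ↔ ∃ γ : Γ, γ • x = y) {γ : Γ} {x : X} (h : γ • x = x) : γ = 1 := by
  have h1 : (fun y : X => γ • y) = fun y => y := by
    apply hP.eq_of_comp_eq (A := X) _ _ _ x h
    · exact (isometry_smul X γ).continuous
    · exact continuous_id
    · funext y
      exact proj_smul hΓ γ y
  apply FaithfulSMul.eq_of_smul_eq_smul (α := X)
  intro y
  rw [one_smul]
  exact congrFun h1 y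

theorem finite_return (hP : IsCoveringMap P) (hs : Function.Surjective P)
    (hΓ : ∀ x y, P x = P y ↔ ∃ γ : Γ, γ • x = y) (x0 : X) (a : ℝ) :
    {γ : Γ | dist (γ • x0) x0 ≤ a}.Finite := by
  obtain ⟨K, hK, hKΓ⟩ := exists_K (Γ := Γ) hP hs hΓ
  obtain ⟨r, hr, hinj⟩ := exists_inj hP hΓ hK hKΓ
  obtain ⟨t, -, ht, hcov⟩ := (isCompact_closedBall x0 a).finite_cover_balls (half_pos hr)
  have h1 : ∀ γ : Γ, dist (γ • x0) x0 ≤ a → ∃ z ∈ t, dist (γ • x0) z < r / 2 := by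
    intro γ hγ
    have h2 := hcov (Metric.mem_closedBall.mpr hγ)
    simp only [mem_iUnion, Metric.mem_ball, exists_prop] at h2
    exact h2
  choose! c hc1 hc2 using h1
  refine Set.Finite.of_injOn (f := c) (t := t) (fun γ hγ => hc1 γ hγ) ?_ ht
  intro γ hγ γ' hγ' heq
  have h3 := hc2 γ hγ
  have h4 := hc2 γ' hγ'
  rw [← heq] at h4
  have h5 : dist (γ • x0) (γ' • x0) < r := by
    have := dist_triangle_right (γ • x0) (γ' • x0) (c γ)
    linarith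
  have h6 := hinj _ _ h5 (by rw [proj_smul hΓ, proj_smul hΓ])
  have h7 : (γ'⁻¹ * γ) • x0 = x0 := by
    rw [mul_smul, h6, inv_smul_smul]
  have h8 := free_of_faithful hP hΓ h7
  exact (inv_mul_eq_one.mp h8).symm

theorem coc (hP : IsCoveringMap P) (hs : Function.Surjective P)
    (hΓ : ∀ x y, P x = P y ↔ ∃ γ : Γ, γ • x = y) (x0 : X) :
    ∃ a : ℝ, ∀ x : X, ∃ γ : Γ, dist x (γ • x0) ≤ a := by
  obtain ⟨K, hK, hKΓ⟩ := exists_K (Γ := Γ) hP hs hΓ
  obtain ⟨a, ha⟩ := hK.isBounded.subset_closedBall x0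
  refine ⟨a, fun x => ?_⟩
  obtain ⟨γ, hγ⟩ := hKΓ x
  refine ⟨γ⁻¹, ?_⟩
  rw [← dist_smul γ, smul_inv_smul]
  exact ha hγ

end ret

theorem cmp_of_finite {X Y Γ : Type*} [MetricSpace X] [MetricSpace Y] [Group Γ] [MulAction Γ X]
    [MulAction Γ Y] {x0 : X} (h : ∀ a, {γ : Γ | dist (γ • x0) x0 ≤ a}.Finite) (y0 : Y) (a : ℝ) :
    ∃ b : ℝ, ∀ γ : Γ, dist (γ • x0) x0 ≤ a → dist (γ • y0) y0 ≤ b := by
  obtain ⟨b, hb⟩ := ((h a).image (fun γ : Γ => dist (γ • y0) y0)).bddAbove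
  exact ⟨b, fun γ hγ => hb ⟨γ, hγ, rfl⟩⟩

theorem uniq_semi {X Y Γ : Type*} [MetricSpace X] [MetricSpace Y] [Group Γ]
    [MulAction Γ X] [MulAction Γ Y] [IsIsometricSMul Γ Y]
    {K : Set X} (hK : IsCompact K) (hKΓ : ∀ x, ∃ γ : Γ, γ • x ∈ K) {F : X ≃ₜ X} {G : Y ≃ₜ Y}
    (hexp : ∀ (u v : Y) (B : ℝ), (∀ n : ℤ, dist ((G ^ n) u) ((G ^ n) v) ≤ B) → u = v)
    {H H' : X → Y} (hc : Continuous H) (hc' : Continuous H')
    (h1 : ∀ (γ : Γ) (x : X), H (γ • x) = γ • H x) (h1' : ∀ (γ : Γ) (x : X), H' (γ • x) = γ • H' x)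
    (h2 : ∀ x, H (F x) = G (H x)) (h2' : ∀ x, H' (F x) = G (H' x)) : H = H' := by
  obtain ⟨B, hB⟩ := (hK.image (hc.dist hc')).bddAbove
  have hB' : ∀ x, dist (H x) (H' x) ≤ B := by
    intro x
    obtain ⟨γ, hγ⟩ := hKΓ x
    have h3 := hB (mem_image_of_mem (fun x => dist (H x) (H' x)) hγ)
    have h4 : dist (H (γ • x)) (H' (γ • x)) ≤ B := h3
    rwa [h1, h1', dist_smul] at h4
  have key : ∀ (H : X → Y), (∀ x, H (F x) = G (H x)) → ∀ (n : ℤ) (x : X),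
      H ((F ^ n) x) = (G ^ n) (H x) := by
    intro H h2 n
    induction n using Int.induction_on with
    | zero => intro x; rfl
    | succ n ih => intro x; rw [zpow_succ_apply, zpow_succ_apply, h2, ih]
    | pred n ih =>
      intro x
      apply G.injective
      rw [← h2, ← zpow_succ_apply, ← zpow_succ_apply, sub_add_cancel, ih]
  funext x
  refine hexp _ _ B fun n => ?_
  rw [← key H h2, ← key H' h2']
  exact hB' _

section main

variable {E : Type*} [NormedAddCommGroup E] [NormedSpace ℝ E] [FiniteDimensional ℝ E]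
  {M : Type*} [TopologicalSpace M] [T2Space M] [CompactSpace M] [ConnectedSpace M]
  [ChartedSpace E M] [IsManifold 𝓘(ℝ, E) ∞ M]
  {E' : Type*} [NormedAddCommGroup E'] [NormedSpace ℝ E'] [FiniteDimensional ℝ E']
  {N : Type*} [TopologicalSpace N] [T2Space N] [CompactSpace N] [ConnectedSpace N]
  [ChartedSpace E' N] [IsManifold 𝓘(ℝ, E') ∞ N]
  {X : Type*} [MetricSpace X] [ProperSpace X] [ConnectedSpace X]
  {Y : Type*} [MetricSpace Y] [ProperSpace Y] [ConnectedSpace Y]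
  {Γ : Type*} [Group Γ] [MulAction Γ X] [IsIsometricSMul Γ X] [FaithfulSMul Γ X]
  [MulAction Γ Y] [IsIsometricSMul Γ Y] [FaithfulSMul Γ Y]

theorem zexp_of_bounded {X : Type*} [MetricSpace X] {F : X ≃ₜ X}
    (h : ∀ (x y : X) (B : ℝ), (∀ n : ℕ, dist (F^[n] x) (F^[n] y) ≤ B) →
        (∀ n : ℕ, dist (F.symm^[n] x) (F.symm^[n] y) ≤ B) → x = y) (u v : X) (B : ℝ)
    (hB : ∀ n : ℤ, dist ((F ^ n) u) ((F ^ n) v) ≤ B) : u = v := by
  refine h u v B (fun n => ?_) (fun n => ?_)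
  · rw [← zpow_nat_apply, ← zpow_nat_apply]; exact hB n
  · rw [← zpow_neg_nat_apply, ← zpow_neg_nat_apply]; exact hB (-n)

/-- The conjugacy statement. -/
def Conj (Γ : Type*) [Group Γ] [MulAction Γ X] [MulAction Γ Y] (P : X → M) (Q : Y → N)
    (f : M → M) (g : N → N) (F : X → X) (G : Y → Y) : Prop :=
  ∃ (H : X ≃ₜ Y) (h : M ≃ₜ N), (∀ (γ : Γ) (x : X), H (γ • x) = γ • H x) ∧
    (∀ x, H (F x) = G (H x)) ∧ (∀ x, Q (H x) = h (P x)) ∧ ∀ m, h (f m) = g (h m)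

omit [ProperSpace Y] [ConnectedSpace X] [ConnectedSpace Y] [FaithfulSMul Γ X]
  [FaithfulSMul Γ Y] in
theorem cb_map {H : X → Y} (hc : Continuous H) (hH : ∀ (γ : Γ) (x : X), H (γ • x) = γ • H x)
    {x0 : X} (hcoc : ∃ a : ℝ, ∀ x : X, ∃ γ : Γ, dist x (γ • x0) ≤ a) (a : ℝ) :
    ∃ b : ℝ, ∀ x x', dist x x' ≤ a → dist (H x) (H x') ≤ b := by
  obtain ⟨a0, ha0⟩ := hcoc
  have hb : Bornology.IsBounded (H '' Metric.closedBall x0 (a0 + a)) :=
    ((isCompact_closedBall x0 (a0 + a)).image hc).isBounded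
  obtain ⟨b, hb⟩ := Metric.isBounded_iff.mp hb
  refine ⟨b, fun x x' hxx => ?_⟩
  obtain ⟨γ, hγ⟩ := ha0 x
  have h0 : 0 ≤ a := dist_nonneg.trans hxx
  have e : ∀ u : X, H u = γ • H (γ⁻¹ • u) := fun u => by rw [← hH, smul_inv_smul]
  rw [e x, e x', dist_smul]
  have e2 : ∀ u : X, dist (γ⁻¹ • u) x0 = dist u (γ • x0) := fun u => by
    rw [← dist_smul γ, smul_inv_smul]
  apply hb
  · refine mem_image_of_mem H ?_
    rw [Metric.mem_closedBall, e2]; linarith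
  · refine mem_image_of_mem H ?_
    rw [Metric.mem_closedBall, e2]
    have := dist_triangle x' x (γ • x0)
    rw [dist_comm x' x] at this
    linarith

omit [ProperSpace X] [ConnectedSpace X] in
theorem iter_conj {X Y : Type*} {F : X → X} {G : Y → Y} {H : X → Y}
    (h : ∀ x, H (F x) = G (H x)) (n : ℕ) : ∀ x, H (F^[n] x) = G^[n] (H x) := by
  induction n with
  | zero => intro x; rfl
  | succ n ih => intro x; rw [Function.iterate_succ_apply, Function.iterate_succ_apply, ih, h]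

/-- The equivariant semiconjugacy to `g`, and the conjugacy. -/
theorem man_class (g : Diffeomorph 𝓘(ℝ, E') 𝓘(ℝ, E') N N 1)
    (Es' Eu' : ∀ x : N, Submodule ℝ (TangentSpace 𝓘(ℝ, E') x)) (hg : IsAnosov g Es' Eu')
    (f : M ≃ₜ M)
    (P : X → M) (hP : IsCoveringMap P) (hPs : Function.Surjective P)
    (hPΓ : ∀ x y, P x = P y ↔ ∃ γ : Γ, γ • x = y)
    (Q : Y → N) (hQ : IsCoveringMap Q) (hQs : Function.Surjective Q)
    (hQΓ : ∀ x y, Q x = Q y ↔ ∃ γ : Γ, γ • x = y)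
    (F : X ≃ₜ X) (hF : ∀ x, P (F x) = f (P x)) (G : Y ≃ₜ Y) (hG : ∀ y, Q (G y) = g (Q y))
    (φ : Γ ≃* Γ) (hφF : ∀ (γ : Γ) (x : X), F (γ • x) = φ γ • F x)
    (hφG : ∀ (γ : Γ) (y : Y), G (γ • y) = φ γ • G y)
    (hCG : CoarselyHyperbolic G) (hNG : NWeak Γ G) :
    (∃! H : C(X, Y), (∀ (γ : Γ) (x : X), H (γ • x) = γ • H x) ∧ ∀ x, H (F x) = G (H x)) ∧
    (Module.finrank ℝ E' ≤ Module.finrank ℝ E → (Conj Γ P Q f g F G ↔
      ∀ (x y : X) (B : ℝ), (∀ n : ℕ, dist (F^[n] x) (F^[n] y) ≤ B) →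
        (∀ n : ℕ, dist (F.symm^[n] x) (F.symm^[n] y) ≤ B) → x = y)) ∧
    ∀ (f₁ : Diffeomorph 𝓘(ℝ, E) 𝓘(ℝ, E) M M 1)
      (Es Eu : ∀ x : M, Submodule ℝ (TangentSpace 𝓘(ℝ, E) x)), IsAnosov f₁ Es Eu →
      (∀ m, f₁ m = f m) → CoarselyHyperbolic F →
    List.TFAE [
      Conj Γ P Q f g F G,
      NWeak Γ F,
      NFix Γ F,
      ∀ (x y : X) (B : ℝ), (∀ n : ℕ, dist (F^[n] x) (F^[n] y) ≤ B) →
        (∀ n : ℕ, dist (F.symm^[n] x) (F.symm^[n] y) ≤ B) → x = y] := by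
  obtain ⟨m, e, he, hemb, hinj⟩ := exists_embedding_euclidean_of_compact (I := 𝓘(ℝ, E)) (M := M)
  let _ : MetricSpace M := hemb.isEmbedding.comapMetricSpace e
  obtain ⟨m', e', he', hemb', hinj'⟩ :=
    exists_embedding_euclidean_of_compact (I := 𝓘(ℝ, E')) (M := N)
  let _ : MetricSpace N := hemb'.isEmbedding.comapMetricSpace e'
  have tG := man_tfae g Es' Eu' hg Q hQ hQs hQΓ G hG (Or.inl hCG)
  obtain ⟨x0⟩ : Nonempty X := inferInstance
  obtain ⟨y0⟩ : Nonempty Y := inferInstance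
  have hcocX := coc hP hPs hPΓ x0
  have hpair : CPair Γ φ F G x0 y0 :=
    { cocX := hcocX
      cocY := coc hQ hQs hQΓ y0
      cmp := cmp_of_finite (finite_return hP hPs hPΓ x0) y0
      cmp' := cmp_of_finite (finite_return hQ hQs hQΓ y0) x0
      eqF := hφF
      eqG := hφG }
  have hG1 := (tG.out 4 0).mp hNG
  have hG3 := (tG.out 4 2).mp hNG
  have hexpG : ∀ (u v : Y) (B : ℝ), (∀ n : ℤ, dist ((G ^ n) u) ((G ^ n) v) ≤ B) → u = v :=
    zexp_of_bounded hG3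
  have hgG : ∀ x y, ∃ w, As G x w ∧ As G.symm y w := fun x y => (hG1.2 x y).exists
  obtain ⟨NG, hNG1, RG, hRG⟩ := hCG
  obtain ⟨K, hK, hKΓ⟩ : ∃ K : Set X, IsCompact K ∧ ∀ x, ∃ γ : Γ, γ • x ∈ K := exists_K hP hPs hPΓ
  obtain ⟨k, B, hkc, hk1, hk2, hk3⟩ := hpair.exists_map hNG1 hRG hgG hexpG
  have mk : ∀ H : X ≃ₜ Y, (∀ x, H (F x) = G (H x)) → (∀ (γ : Γ) (x : X), H (γ • x) = γ • H x) →
      Conj Γ P Q f g F G := by
    intro H hH1 hH2
    obtain ⟨h, hh⟩ := descend hP hPs hPΓ hQ hQs hQΓ H hH2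
    refine ⟨H, h, hH2, hH1, hh, fun m => ?_⟩
    obtain ⟨x, rfl⟩ := hPs m
    rw [← hF, ← hh, ← hh, hH1, hG]
  have conj_bdd : Conj Γ P Q f g F G → ∀ (x y : X) (B : ℝ),
      (∀ n : ℕ, dist (F^[n] x) (F^[n] y) ≤ B) →
        (∀ n : ℕ, dist (F.symm^[n] x) (F.symm^[n] y) ≤ B) → x = y := by
    rintro ⟨H, h, hH1, hH2, -, -⟩ x y B hB1 hB2
    obtain ⟨b, hb⟩ := cb_map H.continuous hH1 hcocX B
    have hH2' : ∀ x, H (F.symm x) = G.symm (H x) := by
      intro x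
      apply G.injective
      rw [← hH2, Homeomorph.apply_symm_apply, Homeomorph.apply_symm_apply]
    apply H.injective
    refine hG3 _ _ b (fun n => ?_) (fun n => ?_)
    · rw [← iter_conj (F := F) (G := G) (H := H) hH2, ← iter_conj (F := F) (G := G) (H := H) hH2]
      exact hb _ _ (hB1 n)
    · rw [← iter_conj (F := F.symm) (G := G.symm) (H := H) hH2',
        ← iter_conj (F := F.symm) (G := G.symm) (H := H) hH2']
      exact hb _ _ (hB2 n)
  refine ⟨?_, ?_, ?_⟩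
  · refine ⟨⟨k, hkc⟩, ⟨hk2, hk1⟩, ?_⟩
    rintro H' ⟨h1, h2⟩
    apply ContinuousMap.ext
    intro x
    exact congrFun (uniq_semi hK hKΓ hexpG H'.continuous hkc h1 hk2 h2 hk1) x
  · intro hdim
    refine ⟨conj_bdd, fun hbd => ?_⟩
    have hexpF : ∀ (u v : X) (B : ℝ), (∀ n : ℤ, dist ((F ^ n) u) ((F ^ n) v) ≤ B) → u = v :=
      zexp_of_bounded hbd
    have kinj : Function.Injective k := by
      intro x x' hxx
      have h1 := (hk3 x).swap
      rw [hxx] at h1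
      exact hpair.symm.sh_unique hexpF h1 (hk3 x').swap
    obtain ⟨h, hc, hh⟩ := descend_aux hP hPs hPΓ hQ.continuous hQΓ k hkc hk2
    have hinj : Function.Injective h := by
      intro m1 m2 hm
      obtain ⟨x1, rfl⟩ := hPs m1
      obtain ⟨x2, rfl⟩ := hPs m2
      rw [← hh, ← hh, hQΓ] at hm
      obtain ⟨γ, hγ⟩ := hm
      rw [← hk2] at hγ
      exact (hPΓ _ _).mpr ⟨γ, kinj hγ⟩
    obtain ⟨-, hsur, -⟩ := Pool.Agent.TH553.K289.covering_of_locInj hdim hc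
      (fun x => ⟨univ, univ_mem, hinj.injOn⟩)
    have ksur : Function.Surjective k := by
      intro y
      obtain ⟨m, hm⟩ := hsur (Q y)
      obtain ⟨x, rfl⟩ := hPs m
      rw [← hh, hQΓ] at hm
      obtain ⟨γ, hγ⟩ := hm
      exact ⟨γ • x, by rw [hk2, hγ]⟩
    choose l hl using ksur
    have hl' : ∀ y, CPair.Sh Γ G F y0 x0 B y (l y) := by
      intro y
      have := (hk3 (l y)).swap
      rwa [hl] at this
    have lc : Continuous l := hpair.symm.sh_continuous hexpF hl'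
    exact mk ⟨⟨k, l, fun x => kinj (hl (k x)), hl⟩, hkc, lc⟩ hk1 hk2
  · intro f₁ Es Eu hf hff hCF
    have tF := man_tfae f₁ Es Eu hf P hP hPs hPΓ F (fun x => by rw [hF, hff]) (Or.inl hCF)
    obtain ⟨NF, hNF1, RF, hRF⟩ := hCF
    tfae_have 2 ↔ 3 := tF.out 4 3
    tfae_have 3 ↔ 4 := tF.out 3 2
    tfae_have 4 → 1 := by
      intro h4
      have hF1 := (tF.out 2 0).mp h4
      obtain ⟨H, hH1, hH2⟩ := hpair.exists_homeo hNG1 hRG hgG hexpG hNF1 hRF
        (fun x y => (hF1.2 x y).exists) (zexp_of_bounded h4)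
      exact mk H hH1 hH2
    tfae_have 1 → 4 := conj_bdd
    tfae_finish

end main

end Pool.Agent.H223.CC
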