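import Pool.Agent.H223.CE.Eng

set_option autoImplicit false
set_option linter.unusedSectionVars false

namespace Pool.Agent.H223.CC

open Filter Topology Set
open Pool.Agent.H223.CE (As)

theorem zpow_nat_apply {Y : Type*} [TopologicalSpace Y] (T : Y ≃ₜ Y) (n : ℕ) (x : Y) :
    (T ^ (n : ℤ)) x = T^[n] x := by
  rw [zpow_natCast]
  induction n generalizing x with
  | zero => rfl
  | succ n ih => rw [pow_succ, Homeomorph.mul_apply, ih, Function.iterate_succ_apply]

theorem zpow_neg_nat_apply {Y : Type*} [TopologicalSpace Y] (T : Y ≃ₜ Y) (n : ℕ) (x : Y) :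
    (T ^ (-(n : ℤ))) x = T.symm^[n] x := by
  have h : T ^ (-(n : ℤ)) = T.symm ^ (n : ℤ) := by
    rw [zpow_neg, ← inv_zpow]; rfl
  rw [h, zpow_nat_apply]

theorem zpow_succ_apply {Y : Type*} [TopologicalSpace Y] (T : Y ≃ₜ Y) (n : ℤ) (x : Y) :
    (T ^ (n + 1)) x = T ((T ^ n) x) := by
  rw [add_comm, zpow_add, zpow_one, Homeomorph.mul_apply]

theorem zpow_add_apply {Y : Type*} [TopologicalSpace Y] (T : Y ≃ₜ Y) (m n : ℤ) (x : Y) :
    (T ^ (m + n)) x = (T ^ m) ((T ^ n) x) := by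
  rw [zpow_add, Homeomorph.mul_apply]

theorem zpow_symm_apply {Y : Type*} [TopologicalSpace Y] (T : Y ≃ₜ Y) (n : ℤ) (x : Y) :
    T.symm ((T ^ (n + 1)) x) = (T ^ n) x := by
  rw [zpow_succ_apply, Homeomorph.symm_apply_apply]

/-- bounded above from the two ends -/
theorem bdd_of_ends {a : ℤ → ℝ} {l l' : ℝ} (h : Tendsto (fun n : ℕ => a n) atTop (𝓝 l))
    (h' : Tendsto (fun n : ℕ => a (-n)) atTop (𝓝 l')) : BddAbove (range a) := by
  obtain ⟨B, hB⟩ := h.bddAbove_range
  obtain ⟨B', hB'⟩ := h'.bddAbove_range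
  refine ⟨max B B', ?_⟩
  rintro _ ⟨n, rfl⟩
  rcases Int.eq_nat_or_neg n with ⟨k, rfl | rfl⟩
  · exact (hB ⟨k, rfl⟩).trans (le_max_left _ _)
  · exact (hB' ⟨k, rfl⟩).trans (le_max_right _ _)

/-- the growth argument -/
theorem sup_bound {a : ℤ → ℝ} {R C : ℝ} (hb : BddAbove (range a))
    (h : ∀ n, R ≤ a n → 2 * a n ≤ max (a (n + 1)) (a (n - 1)) + C) (n : ℤ) :
    a n ≤ max R C := by
  by_contra hcon
  push Not at hcon
  have h1 : a n ≤ ⨆ k, a k := le_ciSup hb n
  have h2 : max R ((iSup a + C) / 2) < iSup a := by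
    apply max_lt
    · exact lt_of_le_of_lt (le_max_left _ _) (hcon.trans_le h1)
    · have : C < iSup a := lt_of_le_of_lt (le_max_right _ _) (hcon.trans_le h1)
      linarith
  obtain ⟨k, hk⟩ := exists_lt_of_lt_ciSup h2
  have h3 := h k ((le_max_left _ _).trans hk.le)
  have h4 : max (a (k + 1)) (a (k - 1)) ≤ iSup a := max_le (le_ciSup hb _) (le_ciSup hb _)
  have h5 := lt_of_le_of_lt (le_max_right R ((iSup a + C) / 2)) hk
  linarith

variable {Y : Type*} [MetricSpace Y]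

/-- the growth estimate along an orbit and a pseudo orbit -/
theorem growth (T : Y ≃ₜ Y) {R C : ℝ} (hCH : ∀ x y, R ≤ dist x y →
      2 * dist x y ≤ max (dist (T x) (T y)) (dist (T.symm x) (T.symm y)))
    (y : ℤ → Y) (hy : ∀ n, dist (T (y n)) (y (n + 1)) ≤ C)
    (hy' : ∀ n, dist (T.symm (y (n + 1))) (y n) ≤ C) (w : Y)
    (hb : BddAbove (range fun n : ℤ => dist ((T ^ n) w) (y n))) (n : ℤ) :
    dist ((T ^ n) w) (y n) ≤ max R C := by
  refine sup_bound hb (fun n hn => ?_) n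
  refine (hCH _ _ hn).trans ?_
  apply max_le
  · rw [← zpow_succ_apply]
    have h1 := dist_triangle ((T ^ (n + 1)) w) (y (n + 1)) (T (y n))
    rw [dist_comm (y (n + 1))] at h1
    have := hy n
    have := le_max_left (dist ((T ^ (n + 1)) w) (y (n + 1))) (dist ((T ^ (n - 1)) w) (y (n - 1)))
    linarith
  · have h0 := zpow_symm_apply T (n - 1) w
    rw [sub_add_cancel] at h0
    rw [h0]
    have h1 := dist_triangle ((T ^ (n - 1)) w) (y (n - 1)) (T.symm (y n))
    rw [dist_comm (y (n - 1))] at h1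
    have h2 := hy' (n - 1)
    rw [sub_add_cancel] at h2
    have := le_max_right (dist ((T ^ (n + 1)) w) (y (n + 1))) (dist ((T ^ (n - 1)) w) (y (n - 1)))
    linarith

/-- the truncation of a sequence -/
def clamp (m n : ℤ) : ℤ := max (-m) (min m n)

theorem clamp_of_mem {m n : ℤ} (h1 : -m ≤ n) (h2 : n ≤ m) : clamp m n = n := by
  unfold clamp
  rw [min_eq_right h2, max_eq_right h1]

theorem clamp_of_ge {m n : ℤ} (h0 : 0 ≤ m) (h : m ≤ n) : clamp m n = m := by
  unfold clamp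
  rw [min_eq_left h, max_eq_right (by omega)]

theorem clamp_of_le {m n : ℤ} (h0 : 0 ≤ m) (h : n ≤ -m) : clamp m n = -m := by
  unfold clamp
  rw [min_eq_right (by omega), max_eq_left h]

/-- finite shadowing at large scale -/
theorem finite_shadow (T : Y ≃ₜ Y) {R C : ℝ} (hC : 0 ≤ C) (hCH : ∀ x y, R ≤ dist x y →
      2 * dist x y ≤ max (dist (T x) (T y)) (dist (T.symm x) (T.symm y)))
    (hgps : ∀ x y, ∃ w, As T x w ∧ As T.symm y w)
    (y : ℤ → Y) (hy : ∀ n, dist (T (y n)) (y (n + 1)) ≤ C)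
    (hy' : ∀ n, dist (T.symm (y (n + 1))) (y n) ≤ C) (m : ℕ) :
    ∃ w, ∀ n : ℤ, -m ≤ n → n ≤ m → dist ((T ^ n) w) (y n) ≤ max R C := by
  obtain ⟨w, hw1, hw2⟩ := hgps ((T ^ (-(m : ℤ))) (y m)) ((T ^ (m : ℤ)) (y (-m)))
  set y' : ℤ → Y := fun n => (T ^ (n - clamp m n)) (y (clamp m n)) with hy'def
  have hmem : ∀ n : ℤ, -m ≤ n → n ≤ m → y' n = y n := by
    intro n h1 h2
    show (T ^ (n - clamp m n)) (y (clamp m n)) = y n
    rw [clamp_of_mem h1 h2, sub_self, zpow_zero]; rfl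
  have hge : ∀ n : ℤ, m ≤ n → y' n = (T ^ (n - m)) (y m) := by
    intro n h
    show (T ^ (n - clamp m n)) (y (clamp m n)) = _
    rw [clamp_of_ge (by omega) h]
  have hle : ∀ n : ℤ, n ≤ -m → y' n = (T ^ (n + m)) (y (-m)) := by
    intro n h
    show (T ^ (n - clamp m n)) (y (clamp m n)) = _
    rw [clamp_of_le (by omega) h, sub_neg_eq_add]
  have hstep : ∀ n : ℤ, (y' n = y n ∧ y' (n + 1) = y (n + 1)) ∨ T (y' n) = y' (n + 1) := by
    intro n
    by_cases h1 : (m : ℤ) ≤ n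
    · right
      rw [hge n h1, hge (n + 1) (by omega), ← zpow_succ_apply]
      congr 2; ring
    · by_cases h2 : n + 1 ≤ -m
      · right
        rw [hle n (by omega), hle (n + 1) h2, ← zpow_succ_apply]
        congr 2; ring
      · left
        exact ⟨hmem n (by omega) (by omega), hmem (n + 1) (by omega) (by omega)⟩
  have hs1 : ∀ n, dist (T (y' n)) (y' (n + 1)) ≤ C := by
    intro n
    rcases hstep n with ⟨h1, h2⟩ | h1
    · rw [h1, h2]; exact hy n
    · rw [h1, dist_self]; exact hC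
  have hs2 : ∀ n, dist (T.symm (y' (n + 1))) (y' n) ≤ C := by
    intro n
    rcases hstep n with ⟨h1, h2⟩ | h1
    · rw [h1, h2]; exact hy' n
    · rw [← h1, Homeomorph.symm_apply_apply, dist_self]; exact hC
  have hb : BddAbove (range fun n : ℤ => dist ((T ^ n) w) (y' n)) := by
    apply bdd_of_ends (l := 0) (l' := 0)
    · have h1 : Tendsto (fun n : ℕ => dist (T^[n] ((T ^ (-(m : ℤ))) (y m))) (T^[n] w)) atTop
        (𝓝 0) := hw1
      refine h1.congr' ?_
      filter_upwards [eventually_ge_atTop m] with n hn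
      rw [hge n (by exact_mod_cast hn), dist_comm, zpow_nat_apply, ← zpow_nat_apply T n,
        ← zpow_nat_apply T n, ← zpow_add_apply]
      congr 3
    · have h1 : Tendsto (fun n : ℕ => dist (T.symm^[n] ((T ^ (m : ℤ)) (y (-m)))) (T.symm^[n] w))
        atTop (𝓝 0) := hw2
      refine h1.congr' ?_
      filter_upwards [eventually_ge_atTop m] with n hn
      rw [hle (-n) (by omega), dist_comm, ← zpow_neg_nat_apply T n, ← zpow_neg_nat_apply T n,
        ← zpow_add_apply]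
  refine ⟨w, fun n h1 h2 => ?_⟩
  rw [← hmem n h1 h2]
  exact growth T hCH y' hs1 hs2 w hb n

/-- **Shadowing at large scale.** -/
theorem coarse_shadow [ProperSpace Y] (T : Y ≃ₜ Y) {R C : ℝ} (hC : 0 ≤ C)
    (hCH : ∀ x y, R ≤ dist x y →
      2 * dist x y ≤ max (dist (T x) (T y)) (dist (T.symm x) (T.symm y)))
    (hgps : ∀ x y, ∃ w, As T x w ∧ As T.symm y w)
    (y : ℤ → Y) (hy : ∀ n, dist (T (y n)) (y (n + 1)) ≤ C)
    (hy' : ∀ n, dist (T.symm (y (n + 1))) (y n) ≤ C) :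
    ∃ w, ∀ n : ℤ, dist ((T ^ n) w) (y n) ≤ max R C := by
  choose w hw using finite_shadow T hC hCH hgps y hy hy'
  have hmem : ∀ m, w m ∈ Metric.closedBall (y 0) (max R C) := by
    intro m
    have := hw m 0 (by omega) (by omega)
    rwa [zpow_zero] at this
  obtain ⟨z, -, φ, hφ, hz⟩ := (isCompact_closedBall (y 0) (max R C)).tendsto_subseq hmem
  refine ⟨z, fun n => ?_⟩
  have h1 : Tendsto (fun k => dist ((T ^ n) (w (φ k))) (y n)) atTop (𝓝 (dist ((T ^ n) z) (y n))) :=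
    (((T ^ n).continuous.tendsto z).comp hz).dist tendsto_const_nhds
  refine le_of_tendsto h1 ?_
  filter_upwards [eventually_ge_atTop n.natAbs] with k hk
  have h2 : k ≤ φ k := hφ.id_le k
  apply hw
  · omega
  · omega

end Pool.Agent.H223.CC
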